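import Pool.Agent.H25.MstAv

set_option autoImplicit false

namespace Pool.Agent.Results.MP_589357_co.Cex

open Pool.Agent.H25.Mst

/-- Some finite connected simple graph has mean subtree order strictly smaller than the mean
size of its connected vertex sets. -/
theorem result : ∃ (V : Type) (_ : Finite V) (G : SimpleGraph V), G.Connected ∧ mu G < av G :=
  ⟨_, inferInstance, GT, GT_conn, mu_lt_av⟩

end Pool.Agent.Results.MP_589357_co.Cex
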